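import Pool.Agent.Helper15.Quartic

set_option autoImplicit false
set_option linter.unusedVariables false
set_option linter.unusedSectionVars false

/-!
# A quartic with a simple root in a number field `K` inside `ℚ_p` has infinitely many square values
over a quadratic extension of `K` inside `ℚ_p`
-/

namespace Pool.Agent.Helper23.N4

open NNReal MvPolynomial Pool.Agent.Helper15

/-- `Helper15.quartic_infinite` with an explicit bound. -/
theorem quartic_infinite' {L : Type*} [Field L] [Infinite L] (v : Valuation L ℝ≥0) (h3 : v 3 < 1)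
    (h30 : v 3 ≠ 0) (k : ℕ) (c : ℝ≥0) (hc : 0 < c) (c1 c2 c3 c4 r : L)
    (hc1 : v 9 ^ k * v c1 ≤ 1) (hc2 : v 9 ^ k * v c2 ≤ 1)
    (hc3 : v 9 ^ k * v c3 ≤ 1) (hc4 : v 9 ^ k * v c4 ≤ 1) (hcc1 : c ≤ v c1) (hr0 : r ≠ 0)
    (hr1 : v r < 1) (hr2 : v r < v 3 * (v 9 ^ k * c) ^ 8) :
      {s : L | ∃ w : L, w ≠ 0 ∧
        w ^ 2 = r ^ 2 + c1 * s + c2 * s ^ 2 + c3 * s ^ 3 + c4 * s ^ 4}.Infinite := by
  classical
  have h9 : v (9 : L) = v 3 ^ 2 := by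
    rw [← map_pow]; norm_num
  have h90 : v (9 : L) ≠ 0 := by rw [h9]; exact pow_ne_zero 2 h30
  have h3ne : (3 : L) ≠ 0 := (Valuation.ne_zero_iff v).mp h30
  intro hfin
  have hint : ∀ z : L, v 9 ^ k * v z ≤ 1 → (9 : L) ^ k * z ∈ v.integer := by
    intro z hz
    show v ((9 : L) ^ k * z) ≤ 1
    rwa [map_mul, map_pow]
  set w0 : L := 3 ^ k * r with hw0
  have hw0sq : w0 ^ 2 = 9 ^ k * r ^ 2 := by
    rw [hw0, mul_pow, ← pow_mul, mul_comm k 2, pow_mul]; norm_num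
  have hvw0 : v w0 ≤ v r := by
    rw [hw0, map_mul, map_pow]
    calc v 3 ^ k * v r ≤ 1 * v r := mul_le_mul' (pow_le_one₀ zero_le h3.le) le_rfl
      _ = v r := one_mul _
  set F : MvPolynomial Unit L := quartic (9 ^ k * r ^ 2) (9 ^ k * c1) (9 ^ k * c2) (9 ^ k * c3)
    (9 ^ k * c4) with hF
  set T : Set L := {s : L | ∃ w : L, w ≠ 0 ∧
        w ^ 2 = r ^ 2 + c1 * s + c2 * s ^ 2 + c3 * s ^ 3 + c4 * s ^ 4} with hT
  set G : MvPolynomial Unit L := ∏ s ∈ hfin.toFinset, (X () - C s) with hG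
  have hG0 : G = 0 := by
    refine dense_local' v h3 F ?_ (fun j => degreeOf_quartic _ _ _ _ _ j) 0 ?_ w0 ?_ ?_
      (v 9 ^ k * c) ?_ ?_ G ?_
    · intro m
      refine coeff_quartic_mem _ _ _ _ _ v.integer ?_ (hint _ hc1) (hint _ hc2) (hint _ hc3)
        (hint _ hc4) m
      rw [← hw0sq]
      show v (w0 ^ 2) ≤ 1
      rw [map_pow]
      exact pow_le_one₀ zero_le (le_trans hvw0 hr1.le)
    · intro i; simp
    · exact mul_ne_zero (pow_ne_zero k h3ne) hr0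
    · rw [hF, eval_quartic, hw0sq]; simp
    · intro j
      have : eval (0 : Unit → L) (pderiv j F) = 9 ^ k * c1 := by
        rw [hF, quartic]
        have hj : j = () := rfl
        subst hj
        simp
      rw [this, map_mul, map_pow]
      exact mul_le_mul' le_rfl hcc1
    · calc v w0 ^ 2 ≤ v r ^ 2 := pow_le_pow_left₀ zero_le hvw0 2
        _ = v r * v r := sq _
        _ ≤ v r * 1 := mul_le_mul' le_rfl hr1.le
        _ = v r := mul_one _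
        _ < _ := hr2
    · rintro x ⟨u, hu0, hu⟩
      rw [hF, eval_quartic] at hu
      have hx : x () ∈ T := by
        refine ⟨u / 3 ^ k, div_ne_zero hu0 (pow_ne_zero k h3ne), ?_⟩
        rw [div_pow, hu]
        have e2 : ((3 : L) ^ k) ^ 2 = 9 ^ k := by
          rw [← pow_mul, mul_comm, pow_mul]; norm_num
        rw [e2]
        have h9' : (9 : L) ^ k ≠ 0 := by
          rw [← e2]; exact pow_ne_zero 2 (pow_ne_zero k h3ne)
        field_simp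
      rw [hG, map_prod]
      refine Finset.prod_eq_zero (hfin.mem_toFinset.mpr hx) ?_
      simp
  rw [hG, Finset.prod_eq_zero_iff] at hG0
  obtain ⟨s, -, hs⟩ := hG0
  have := congrArg (eval (fun _ => s + 1)) hs
  simp at this

/-- Elements close to `1` are squares. -/
theorem exists_sqrt {p : ℕ} [Fact p.Prime] (hp : p ≠ 2) (δ : ℚ_[p]) (h : ‖δ‖ < 1) :
    ∃ u : ℚ_[p], u ^ 2 = 1 + δ := by
  let d : ℤ_[p] := ⟨δ, h.le⟩
  have h2 : ‖(2 : ℤ_[p])‖ = 1 := by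
    have h3 : ‖((2 : ℕ) : ℤ_[p])‖ = 1 := by
      rw [PadicInt.norm_natCast_eq_one_iff]
      exact (Nat.coprime_primes (Fact.out : p.Prime) Nat.prime_two).2 hp
    exact_mod_cast h3
  let F : Polynomial ℤ_[p] := Polynomial.X ^ 2 - Polynomial.C (1 + d)
  have e1 : Polynomial.aeval (1 : ℤ_[p]) F = -d := by
    simp [F]
  have e2 : Polynomial.aeval (1 : ℤ_[p]) (Polynomial.derivative F) = 2 := by
    simp [F]
    norm_num
  have hh : ‖Polynomial.aeval (1 : ℤ_[p]) F‖ <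
      ‖Polynomial.aeval (1 : ℤ_[p]) (Polynomial.derivative F)‖ ^ 2 := by
    rw [e1, e2, h2, norm_neg, one_pow]
    exact h
  obtain ⟨z, hz, -⟩ := hensels_lemma hh
  refine ⟨(z : ℚ_[p]), ?_⟩
  have h4 : z ^ 2 - (1 + d) = 0 := by
    have h7 : Polynomial.aeval z F = z ^ 2 - (1 + d) := by
      simp [F]
    rw [← h7]
    exact hz
  have h5 : z ^ 2 = 1 + d := sub_eq_zero.1 h4
  have h6 := congrArg (fun x : ℤ_[p] => (x : ℚ_[p])) h5
  simpa using h6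

/-- The coefficients at a new centre. -/
theorem recentre {R : Type*} [CommRing R] (c1 c2 c3 c4 s0 s : R) :
    c1 * (s0 + s) + c2 * (s0 + s) ^ 2 + c3 * (s0 + s) ^ 3 + c4 * (s0 + s) ^ 4 =
      (c1 * s0 + c2 * s0 ^ 2 + c3 * s0 ^ 3 + c4 * s0 ^ 4) +
      (c1 + 2 * c2 * s0 + 3 * c3 * s0 ^ 2 + 4 * c4 * s0 ^ 3) * s +
      (c2 + 3 * c3 * s0 + 6 * c4 * s0 ^ 2) * s ^ 2 + (c3 + 4 * c4 * s0) * s ^ 3 + c4 * s ^ 4 := by
  ring

/-- Small values: for `e` close to `0` everything is fine at the centre `τ + c1 e ^ 2`. -/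
theorem eventually_good {E : Type*} [NormedField E] (c1 c2 c3 c4 : E) (hc1 : c1 ≠ 0) (e : ℕ → E)
    (he : Filter.Tendsto e Filter.atTop (nhds 0)) (B η : ℝ) (hη : 0 < η) (h1 : ‖c1‖ < B)
    (h2 : ‖c2‖ < B) (h3 : ‖c3‖ < B) :
    ∀ᶠ N in Filter.atTop, ‖c2 * e N ^ 2 + c3 * c1 * e N ^ 4 + c4 * c1 ^ 2 * e N ^ 6‖ < 1 ∧
      ‖(c1 * e N) ^ 2 * (1 + (c2 * e N ^ 2 + c3 * c1 * e N ^ 4 + c4 * c1 ^ 2 * e N ^ 6))‖ < η ∧
      ‖c1‖ / 2 < ‖c1 + 2 * c2 * (c1 * e N ^ 2) + 3 * c3 * (c1 * e N ^ 2) ^ 2 +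
        4 * c4 * (c1 * e N ^ 2) ^ 3‖ ∧
      ‖c1 + 2 * c2 * (c1 * e N ^ 2) + 3 * c3 * (c1 * e N ^ 2) ^ 2 +
        4 * c4 * (c1 * e N ^ 2) ^ 3‖ < B ∧
      ‖c2 + 3 * c3 * (c1 * e N ^ 2) + 6 * c4 * (c1 * e N ^ 2) ^ 2‖ < B ∧
      ‖c3 + 4 * c4 * (c1 * e N ^ 2)‖ < B := by
  have t1 : Filter.Tendsto (fun N => c2 * e N ^ 2 + c3 * c1 * e N ^ 4 + c4 * c1 ^ 2 * e N ^ 6)
      Filter.atTop (nhds (c2 * 0 ^ 2 + c3 * c1 * 0 ^ 4 + c4 * c1 ^ 2 * 0 ^ 6)) :=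
    (((he.pow 2).const_mul _).add ((he.pow 4).const_mul _)).add ((he.pow 6).const_mul _)
  have t2 := (((he.const_mul c1).pow 2).mul (t1.const_add 1)).norm
  have t1' := t1.norm
  have ts : Filter.Tendsto (fun N => c1 * e N ^ 2) Filter.atTop (nhds (c1 * 0 ^ 2)) :=
    (he.pow 2).const_mul _
  have t3 := (((ts.const_mul (2 * c2)).const_add c1).add ((ts.pow 2).const_mul (3 * c3))).add
    ((ts.pow 3).const_mul (4 * c4)) |>.norm
  have t4 := ((ts.const_mul (3 * c3)).const_add c2).add ((ts.pow 2).const_mul (6 * c4)) |>.norm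
  have t5 := ((ts.const_mul (4 * c4)).const_add c3).norm
  have hpos : 0 < ‖c1‖ := norm_pos_iff.2 hc1
  simp only [ne_eq, OfNat.ofNat_ne_zero, not_false_eq_true, zero_pow, mul_zero, add_zero,
    norm_zero, mul_one, zero_mul] at t1' t2 t3 t4 t5
  refine (t1'.eventually (gt_mem_nhds one_pos)).and ((t2.eventually (gt_mem_nhds hη)).and
    ((t3.eventually (lt_mem_nhds (half_lt_self hpos))).and ((t3.eventually (gt_mem_nhds h1)).and
    ((t4.eventually (gt_mem_nhds h2)).and (t5.eventually (gt_mem_nhds h3))))))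

theorem quartic_ext {p : ℕ} [Fact p.Prime] (hp : p ≠ 2) (K : IntermediateField ℚ ℚ_[p])
    [FiniteDimensional ℚ K] (q : Polynomial ℚ_[p]) (hq : ∀ i, q.coeff i ∈ K)
    (hd : q.natDegree ≤ 4) (τ : ℚ_[p]) (hτ : τ ∈ K) (h0 : q.eval τ = 0)
    (h1 : q.derivative.eval τ ≠ 0) :
    ∃ K' : IntermediateField ℚ ℚ_[p], FiniteDimensional ℚ K' ∧ K ≤ K' ∧
      {t : ℚ_[p] | t ∈ (K' : Set ℚ_[p]) ∧
        ∃ w ∈ (K' : Set ℚ_[p]), w ≠ 0 ∧ w ^ 2 = q.eval t}.Infinite := by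
  classical
  have : Fact (Nat.Prime 3) := ⟨Nat.prime_three⟩
  -- the coefficients at `τ`
  obtain ⟨q0, hq0⟩ : ∃ q0 : Polynomial K, q0.map (algebraMap K ℚ_[p]) = q := by
    have h : q ∈ Polynomial.lifts (algebraMap K ℚ_[p]) := by
      rw [Polynomial.lifts_iff_coeff_lifts]
      intro n
      exact ⟨⟨q.coeff n, hq n⟩, rfl⟩
    exact Polynomial.mem_lifts _ |>.1 h
  let τ0 : K := ⟨τ, hτ⟩
  let c : ℕ → K := fun i => (Polynomial.taylor τ0 q0).coeff i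
  have hc : ∀ i, (Polynomial.taylor τ q).coeff i = (c i : ℚ_[p]) := by
    intro i
    rw [← hq0]
    have h := Polynomial.map_taylor q0 τ0 (algebraMap K ℚ_[p])
    have h2 : algebraMap K ℚ_[p] τ0 = τ := rfl
    rw [h2] at h
    rw [← h, Polynomial.coeff_map]
    rfl
  have hc0 : (c 0 : ℚ_[p]) = 0 := by
    rw [← hc, Polynomial.taylor_coeff_zero, h0]
  have hc1 : c 1 ≠ 0 := by
    intro h
    apply h1
    rw [← Polynomial.taylor_coeff_one, hc, h]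
    rfl
  have hev : ∀ s : ℚ_[p], q.eval (τ + s) = (c 1 : ℚ_[p]) * s + (c 2 : ℚ_[p]) * s ^ 2 +
      (c 3 : ℚ_[p]) * s ^ 3 + (c 4 : ℚ_[p]) * s ^ 4 := by
    intro s
    rw [add_comm τ s, ← Polynomial.taylor_eval,
      Polynomial.eval_eq_sum_range' (n := 5) (by rw [Polynomial.natDegree_taylor]; omega)]
    simp only [Finset.sum_range_succ, Finset.sum_range_zero, hc, hc0]
    ring
  -- the embedding of the algebraic numbers in `ℚ_p` into an algebraic closure of `ℚ_3`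
  let A : IntermediateField ℚ ℚ_[p] := algebraicClosure ℚ ℚ_[p]
  have hKA : K ≤ A := fun x hx =>
    mem_algebraicClosure_iff.2 ((Algebra.IsAlgebraic.isAlgebraic (⟨x, hx⟩ : K)).algebraMap)
  have : Algebra.IsAlgebraic ℚ A := ⟨fun x => by
    have h := mem_algebraicClosure_iff.1 x.2
    exact (isAlgebraic_algebraMap_iff (algebraMap A ℚ_[p]).injective).1 h⟩
  let ι : A →ₐ[ℚ] PadicAlgCl 3 := IsAlgClosed.lift
  let φ : K →+* PadicAlgCl 3 := ι.toRingHom.comp (IntermediateField.inclusion hKA).toRingHom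
  have n3 : ‖(3 : PadicAlgCl 3)‖ = 1 / 3 := by
    have h := PadicAlgCl.norm_extends 3 (3 : ℚ_[3])
    have h2 : ((3 : ℚ_[3]) : PadicAlgCl 3) = 3 := map_ofNat _ 3
    rw [h2] at h
    rw [h]
    have h3 := Padic.norm_p (p := 3)
    rw [one_div]
    exact_mod_cast h3
  have hφ0 : ∀ x : K, x ≠ 0 → φ x ≠ 0 := fun x hx => (map_ne_zero φ).2 hx
  -- bounds
  obtain ⟨B, hB⟩ : ∃ B : ℝ, ∀ i ∈ ({1, 2, 3, 4} : Finset ℕ), ‖φ (c i)‖ < B := by
    refine ⟨∑ j ∈ ({1, 2, 3, 4} : Finset ℕ), ‖φ (c j)‖ + 1, fun j hj => ?_⟩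
    have : ‖φ (c j)‖ ≤ ∑ j ∈ ({1, 2, 3, 4} : Finset ℕ), ‖φ (c j)‖ :=
      Finset.single_le_sum (f := fun j => ‖φ (c j)‖) (fun i _ => norm_nonneg _) hj
    linarith
  have hBpos : 0 < B := lt_of_le_of_lt (norm_nonneg _) (hB 1 (by simp))
  have n9 : ‖(9 : PadicAlgCl 3)‖ = 1 / 9 := by
    have h : (9 : PadicAlgCl 3) = 3 * 3 := by norm_num
    rw [h, norm_mul, n3]
    norm_num
  obtain ⟨k, hk⟩ := exists_pow_lt_of_lt_one (inv_pos.mpr hBpos) (by rw [n9]; norm_num :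
    ‖(9 : PadicAlgCl 3)‖ < 1)
  have hkB : ‖(9 : PadicAlgCl 3)‖ ^ k * B ≤ 1 := by
    have h := mul_lt_mul_of_pos_right hk hBpos
    rw [inv_mul_cancel₀ hBpos.ne'] at h
    exact h.le
  have hc1pos : 0 < ‖φ (c 1)‖ := norm_pos_iff.2 (hφ0 _ hc1)
  let C0 : ℝ := ‖(3 : PadicAlgCl 3)‖ * (‖(9 : PadicAlgCl 3)‖ ^ k * (‖φ (c 1)‖ / 2)) ^ 8
  have hC0 : 0 < C0 := by
    refine mul_pos (by rw [n3]; norm_num) (pow_pos (mul_pos (pow_pos (by rw [n9]; norm_num) k)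
      (half_pos hc1pos)) 8)
  let η : ℝ := min 1 C0 ^ 2
  have hη : 0 < η := pow_pos (lt_min one_pos hC0) 2
  -- the small numbers
  let e : ℕ → K := fun N => ((3 * p : ℕ) : K) ^ N
  have he1 : Filter.Tendsto (fun N => φ (e N)) Filter.atTop (nhds 0) := by
    have h : ∀ N, φ (e N) = ((3 * p : ℕ) : PadicAlgCl 3) ^ N := by
      intro N
      simp only [e, map_pow, map_natCast]
    simp only [h]
    apply tendsto_pow_atTop_nhds_zero_of_norm_lt_one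
    rw [Nat.cast_mul, norm_mul]
    have h2 : ‖((p : ℕ) : PadicAlgCl 3)‖ ≤ 1 := IsUltrametricDist.norm_natCast_le_one _ p
    have h3 : ‖((3 : ℕ) : PadicAlgCl 3)‖ = 1 / 3 := by
      rw [Nat.cast_ofNat]
      exact n3
    rw [h3]
    have := norm_nonneg ((p : ℕ) : PadicAlgCl 3)
    nlinarith
  have he2 : Filter.Tendsto (fun N => ((e N : K) : ℚ_[p])) Filter.atTop (nhds 0) := by
    have h : ∀ N, ((e N : K) : ℚ_[p]) = ((3 * p : ℕ) : ℚ_[p]) ^ N := by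
      intro N
      simp only [e]
      push_cast
      rfl
    simp only [h]
    apply tendsto_pow_atTop_nhds_zero_of_norm_lt_one
    rw [Nat.cast_mul, norm_mul, Padic.norm_p]
    have h2 : ‖((3 : ℕ) : ℚ_[p])‖ ≤ 1 := by exact_mod_cast Padic.norm_int_le_one (p := p) (3 : ℤ)
    have h3 : (p : ℝ)⁻¹ < 1 := by
      have h4 : (1 : ℝ) < p := by exact_mod_cast (Fact.out : p.Prime).one_lt
      exact inv_lt_one_of_one_lt₀ h4
    have h5 : (0 : ℝ) ≤ (p : ℝ)⁻¹ := by positivity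
    calc ‖((3 : ℕ) : ℚ_[p])‖ * (p : ℝ)⁻¹ ≤ 1 * (p : ℝ)⁻¹ := mul_le_mul_of_nonneg_right h2 h5
      _ < 1 := by rwa [one_mul]
  have ev1 := eventually_good (φ (c 1)) (φ (c 2)) (φ (c 3)) (φ (c 4)) (hφ0 _ hc1)
    (fun N => φ (e N)) he1 B η hη (hB 1 (by simp)) (hB 2 (by simp)) (hB 3 (by simp))
  have hc1' : ((c 1 : K) : ℚ_[p]) ≠ 0 := fun h => hc1 (Subtype.ext h)
  have ev2 := eventually_good ((c 1 : K) : ℚ_[p]) (c 2) (c 3) (c 4) hc1'
    (fun N => ((e N : K) : ℚ_[p])) he2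
    (‖((c 1 : K) : ℚ_[p])‖ + ‖((c 2 : K) : ℚ_[p])‖ + ‖((c 3 : K) : ℚ_[p])‖ + 1) 1 one_pos
    (by linarith [norm_nonneg ((c 2 : K) : ℚ_[p]), norm_nonneg ((c 3 : K) : ℚ_[p])])
    (by linarith [norm_nonneg ((c 1 : K) : ℚ_[p]), norm_nonneg ((c 3 : K) : ℚ_[p])])
    (by linarith [norm_nonneg ((c 1 : K) : ℚ_[p]), norm_nonneg ((c 2 : K) : ℚ_[p])])
  obtain ⟨N, ⟨-, g2, g3, g4, g5, g6⟩, f1, -⟩ := (ev1.and ev2).exists
  -- the point
  let s0 : K := c 1 * e N ^ 2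
  let d0 : K := c 2 * e N ^ 2 + c 3 * c 1 * e N ^ 4 + c 4 * c 1 ^ 2 * e N ^ 6
  obtain ⟨u, hu⟩ := exists_sqrt hp (d0 : ℚ_[p]) f1
  let r : ℚ_[p] := c 1 * e N * u
  let V : K := (c 1 * e N) ^ 2 * (1 + d0)
  have hrV : r ^ 2 = (V : ℚ_[p]) := by
    change ((c 1 : K) * (e N : K) * u : ℚ_[p]) ^ 2 = _
    rw [mul_pow, hu]
    rfl
  have hV : V = c 1 * s0 + c 2 * s0 ^ 2 + c 3 * s0 ^ 3 + c 4 * s0 ^ 4 := by
    simp only [V, s0, d0]
    ring
  have he0 : e N ≠ 0 := by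
    refine pow_ne_zero N ?_
    exact_mod_cast (Nat.mul_ne_zero three_ne_zero (Fact.out : p.Prime).ne_zero)
  have hu0 : u ≠ 0 := by
    intro h
    rw [h, zero_pow two_ne_zero] at hu
    have h2 : (d0 : ℚ_[p]) = -1 := by linear_combination -hu
    have h3 : ‖(d0 : ℚ_[p])‖ < 1 := f1
    rw [h2, norm_neg, norm_one] at h3
    exact lt_irrefl _ h3
  have hr0 : r ≠ 0 :=
    mul_ne_zero (mul_ne_zero hc1' fun h => he0 (Subtype.ext h)) hu0
  -- the field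
  have hVint : IsAlgebraic ℚ (V : ℚ_[p]) := (Algebra.IsAlgebraic.isAlgebraic V).algebraMap
  have hrint : IsIntegral ℚ r := by
    have h : IsIntegral ℚ (r ^ 2) := by
      rw [hrV]
      exact hVint.isIntegral
    exact IsIntegral.of_pow two_pos h
  let Kr : IntermediateField ℚ ℚ_[p] := IntermediateField.adjoin ℚ {r}
  have hfr : FiniteDimensional ℚ Kr := IntermediateField.adjoin.finiteDimensional hrint
  let K' : IntermediateField ℚ ℚ_[p] := K ⊔ Kr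
  have hKK' : K ≤ K' := le_sup_left
  have hrK' : r ∈ K' := (le_sup_right : Kr ≤ K') (IntermediateField.mem_adjoin_simple_self ℚ r)
  have hfin : FiniteDimensional ℚ K' := inferInstance
  refine ⟨K', hfin, hKK', ?_⟩
  have hK'A : K' ≤ A := fun x hx =>
    mem_algebraicClosure_iff.2 ((Algebra.IsAlgebraic.isAlgebraic (⟨x, hx⟩ : K')).algebraMap)
  let j : K →+* K' := (IntermediateField.inclusion hKK').toRingHom
  let ψ : K' →+* PadicAlgCl 3 := ι.toRingHom.comp (IntermediateField.inclusion hK'A).toRingHom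
  have hψ : ∀ x : K, ψ (j x) = φ x := fun x => rfl
  have hj : ∀ x : K, ((j x : K') : ℚ_[p]) = (x : ℚ_[p]) := fun x => rfl
  let r' : K' := ⟨r, hrK'⟩
  have hr' : r' ^ 2 = j V := Subtype.ext hrV
  have hr0' : r' ≠ 0 := fun h => hr0 (congrArg Subtype.val h)
  have hψr : ‖ψ r'‖ < min 1 C0 := by
    have h : ‖ψ r'‖ ^ 2 < min 1 C0 ^ 2 := by
      rw [← norm_pow, ← map_pow, hr', hψ]
      have h2 : φ V = (φ (c 1) * φ (e N)) ^ 2 * (1 + (φ (c 2) * φ (e N) ^ 2 +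
          φ (c 3) * φ (c 1) * φ (e N) ^ 4 + φ (c 4) * φ (c 1) ^ 2 * φ (e N) ^ 6)) := by
        simp only [V, d0, map_mul, map_pow, map_add, map_one]
      rw [h2]
      exact g2
    exact lt_of_pow_lt_pow_left₀ 2 (lt_min one_pos hC0).le h
  let v : Valuation K' ℝ≥0 := (NormedField.valuation (K := PadicAlgCl 3)).comap ψ
  have hv : ∀ x : K', ((v x : ℝ≥0) : ℝ) = ‖ψ x‖ := fun x => rfl
  have hψ3 : ψ 3 = 3 := map_ofNat ψ 3
  have hψ9 : ψ 9 = 9 := map_ofNat ψ 9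
  have hbound : ∀ x : K', ‖ψ x‖ < B → v 9 ^ k * v x ≤ 1 := by
    intro x hx
    have h : ((v 9 ^ k * v x : ℝ≥0) : ℝ) ≤ 1 := by
      rw [NNReal.coe_mul, NNReal.coe_pow, hv, hv, hψ9]
      exact le_trans (mul_le_mul_of_nonneg_left hx.le (pow_nonneg (norm_nonneg _) k)) hkB
    exact_mod_cast h
  have hinf := quartic_infinite' v (by
      have h : ((v 3 : ℝ≥0) : ℝ) < 1 := by
        rw [hv, hψ3, n3]
        norm_num
      exact_mod_cast h) (by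
      intro h
      have h2 : ((v 3 : ℝ≥0) : ℝ) = 0 := by rw [h]; rfl
      rw [hv, hψ3, n3] at h2
      norm_num at h2) k (‖φ (c 1)‖₊ / 2) (by
      have : 0 < ‖φ (c 1)‖₊ := by exact_mod_cast hc1pos
      exact half_pos this)
    (j (c 1 + 2 * c 2 * s0 + 3 * c 3 * s0 ^ 2 + 4 * c 4 * s0 ^ 3))
    (j (c 2 + 3 * c 3 * s0 + 6 * c 4 * s0 ^ 2)) (j (c 3 + 4 * c 4 * s0)) (j (c 4)) r'
    (hbound _ (by
      rw [hψ]
      simp only [s0, map_add, map_mul, map_pow, map_ofNat]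
      exact g4))
    (hbound _ (by
      rw [hψ]
      simp only [s0, map_add, map_mul, map_pow, map_ofNat]
      exact g5))
    (hbound _ (by
      rw [hψ]
      simp only [s0, map_add, map_mul, map_pow, map_ofNat]
      exact g6))
    (hbound _ (by
      rw [hψ]
      exact hB 4 (by simp)))
    (by
      have h : ‖φ (c 1)‖ / 2 ≤ ((v (j (c 1 + 2 * c 2 * s0 + 3 * c 3 * s0 ^ 2 +
          4 * c 4 * s0 ^ 3)) : ℝ≥0) : ℝ) := by
        rw [hv, hψ]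
        simp only [s0, map_add, map_mul, map_pow, map_ofNat]
        exact g3.le
      exact_mod_cast h) hr0'
    (by
      have h : ((v r' : ℝ≥0) : ℝ) < 1 := by
        rw [hv]
        exact lt_of_lt_of_le hψr (min_le_left _ _)
      exact_mod_cast h)
    (by
      have h : ((v r' : ℝ≥0) : ℝ) < ((v 3 * (v 9 ^ k * (‖φ (c 1)‖₊ / 2)) ^ 8 : ℝ≥0) : ℝ) := by
        rw [hv]
        refine lt_of_lt_of_le hψr ((min_le_right _ _).trans (le_of_eq ?_))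
        rw [NNReal.coe_mul, NNReal.coe_pow, NNReal.coe_mul, NNReal.coe_pow, hv, hv, hψ3, hψ9,
          NNReal.coe_div, coe_nnnorm]
        rfl
      exact_mod_cast h)
  -- conclusion
  have himg := hinf.image (f := fun s : K' => τ + (s0 : ℚ_[p]) + (s : ℚ_[p]))
    (fun a _ b _ hab => Subtype.ext (add_left_cancel hab))
  refine himg.mono ?_
  rintro _ ⟨s, ⟨w, hw0, hw⟩, rfl⟩
  refine ⟨?_, (w : ℚ_[p]), w.2, fun h => hw0 (Subtype.ext h), ?_⟩
  · exact K'.add_mem (K'.add_mem (hKK' hτ) (hKK' s0.2)) s.2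
  · have h2 : (w : ℚ_[p]) ^ 2 = r ^ 2 + (c 1 + 2 * c 2 * s0 + 3 * c 3 * s0 ^ 2 +
        4 * c 4 * s0 ^ 3) * s + (c 2 + 3 * c 3 * s0 + 6 * c 4 * s0 ^ 2) * s ^ 2 +
        (c 3 + 4 * c 4 * s0) * s ^ 3 + c 4 * s ^ 4 := by
      have h3 := congrArg (algebraMap K' ℚ_[p]) hw
      simp only [map_add, map_mul, map_pow, map_ofNat] at h3
      exact h3
    change (w : ℚ_[p]) ^ 2 = q.eval (τ + (s0 : ℚ_[p]) + (s : ℚ_[p]))
    rw [h2, show τ + (s0 : ℚ_[p]) + (s : ℚ_[p]) = τ + ((s0 : ℚ_[p]) + (s : ℚ_[p])) from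
      add_assoc _ _ _, hev, recentre]
    have h4 : (V : ℚ_[p]) = c 1 * (s0 : ℚ_[p]) + c 2 * (s0 : ℚ_[p]) ^ 2 +
        c 3 * (s0 : ℚ_[p]) ^ 3 + c 4 * (s0 : ℚ_[p]) ^ 4 := by
      have := congrArg (fun x : K => (x : ℚ_[p])) hV
      exact this
    rw [← h4, ← hrV]

end Pool.Agent.Helper23.N4
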